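import Pool.Agent.H74.TQ.Stmts

set_option autoImplicit false

namespace Pool.TQ

open TMLib Polynomial

private lemma ptime_cut {α : Type} [Enc α] {s l : α → ℕ} {x : α → List Bool} (hs : PTime s)
    (hl : PTime l) (hx : PTime x) : PTime (fun y => cut (s y) (l y) (x y)) := by
  refine PTime.map (l := fun y => List.range (s y))
    (g := fun y j => ((x y).drop (j * l y)).take (l y)) (PTime.range hs) ?_
  have h1 : PTime (fun p : α × ℕ => l p.1) := hl.comp (PTime.fst PTime.id)
  exact PTime.take h1 (PTime.drop (PTime.mul (PTime.snd PTime.id) h1)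
    (hx.comp (PTime.fst PTime.id)))

private lemma ptime_hbits {α : Type} [Enc α] {a : α → ℕ} (ha : PTime a) :
    PTime (fun y => hbits (a y)) :=
  PTime.mul (PTime.add ha (PTime.const 2)) (PTime.add ha (PTime.const 1))

private lemma samples_fpnp (K : Calc) (F : Folds) {S : List Bool × Form → Bool} (P : Par)
    (hsf : FPNP (fun p : ℕ × List Form × List Bool => samp S p.1 p.2.1 p.2.2)) :
    FPNP (fun p : (ℕ × List Bool) × List Form => samples S P p.1.1 p.1.2 p.2) := by
  have pn : PTime (fun p : (ℕ × List Bool) × List Form => p.1.1) := PTime.fst (PTime.fst PTime.id)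
  have pH : PTime (fun p : (ℕ × List Bool) × List Form => p.1.2) := PTime.snd (PTime.fst PTime.id)
  have pa : PTime (fun p : (ℕ × List Bool) × List Form => P.a p.1.1) := P.pa.comp pn
  have pg : PTime (fun p : (ℕ × List Bool) × List Form => P.g p.1.1) := P.pg.comp pn
  have ps : PTime (fun p : (ℕ × List Bool) × List Form => P.s p.1.1) := P.ps.comp pn
  have pell : PTime (fun p : (ℕ × List Bool) × List Form => P.ell p.1.1) :=
    PTime.mul pg (ptime_hbits pa)
  refine F.flatMap (l := fun p : (ℕ × List Bool) × List Form =>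
      cut (P.s p.1.1) (P.ell p.1.1 + 1) p.1.2)
    (g := fun p x => (cut (P.g p.1.1) (hbits (P.a p.1.1)) x.tail).map fun h =>
      samp S (P.a p.1.1) p.2 h) (FPNP.of_ptime (ptime_cut ps (PTime.add pell (PTime.const 1)) pH)) ?_
  refine F.map (l := fun q : ((ℕ × List Bool) × List Form) × List Bool =>
      cut (P.g q.1.1.1) (hbits (P.a q.1.1.1)) q.2.tail)
    (g := fun q h => samp S (P.a q.1.1.1) q.1.2 h) (FPNP.of_ptime ?_) ?_
  · exact ptime_cut (pg.comp (PTime.fst PTime.id)) (ptime_hbits (pa.comp (PTime.fst PTime.id)))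
      (PTime.tail (PTime.snd PTime.id))
  · exact K.compp (g := fun p : ℕ × List Form × List Bool => samp S p.1 p.2.1 p.2.2)
      (f := fun q : (((ℕ × List Bool) × List Form) × List Bool) × List Bool =>
        (P.a q.1.1.1.1, q.1.1.2, q.2)) hsf
      (PTime.pair (pa.comp (PTime.fst (PTime.fst PTime.id)))
        (PTime.pair (PTime.snd (PTime.fst (PTime.fst PTime.id))) (PTime.snd PTime.id)))

theorem lfp : S_LFP := by
  intro K F S P cex hS hcex hC hsf
  have hsam := samples_fpnp K F P hsf
  -- the step
  set step : (ℕ × List Bool) × List Form → (ℕ × List Bool) × List Form :=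
    fun q => (q.1, lstep S P cex q.1.1 q.1.2 q.2) with hstep
  have h1 : FPNP (fun q : (ℕ × List Bool) × List Form =>
      cex (q.1.1, samples S P q.1.1 q.1.2 q.2)) :=
    K.comp hcex (K.pair (FPNP.of_ptime (PTime.fst (PTime.fst PTime.id))) hsam)
  have h2 : FPNP (fun q : (ℕ × List Bool) × List Form => lstep S P cex q.1.1 q.1.2 q.2) :=
    K.pcomp (g := fun r : List Form × Option Form => r.1 ++ r.2.toList)
      (PTime.append (PTime.fst PTime.id) (PTime.toList (PTime.snd PTime.id)))
      (K.pair (FPNP.of_ptime (PTime.snd PTime.id)) h1)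
  have h3 : FPNP step := K.pair (FPNP.of_ptime (PTime.fst PTime.id)) h2
  have hn : PTime (fun p : ℕ × List Bool => P.a p.1 + 1) :=
    PTime.add (P.pa.comp (PTime.fst PTime.id)) (PTime.const 1)
  have key : ∀ (p : ℕ × List Bool) (i : ℕ),
      (step^[i] (p, [])).1 = p ∧ (step^[i] (p, [])).2.length ≤ i ∧
      ∀ φ ∈ (step^[i] (p, [])).2, sz φ ≤ p.1 := by
    intro p i
    induction i with
    | zero => simp
    | succ i ih =>
      rw [Function.iterate_succ_apply']
      obtain ⟨i1, i2, i3⟩ := ih
      refine ⟨i1, ?_, ?_⟩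
      · show (lstep S P cex (step^[i] (p, [])).1.1 (step^[i] (p, [])).1.2
          (step^[i] (p, [])).2).length ≤ i + 1
        unfold lstep
        rw [List.length_append]
        have : (cex ((step^[i] (p, [])).1.1, samples S P (step^[i] (p, [])).1.1
          (step^[i] (p, [])).1.2 (step^[i] (p, [])).2)).toList.length ≤ 1 := by
          cases cex ((step^[i] (p, [])).1.1, samples S P (step^[i] (p, [])).1.1
            (step^[i] (p, [])).1.2 (step^[i] (p, [])).2) <;> simp
        omega
      · intro φ hφ
        change φ ∈ lstep S P cex (step^[i] (p, [])).1.1 (step^[i] (p, [])).1.2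
          (step^[i] (p, [])).2 at hφ
        unfold lstep at hφ
        rw [List.mem_append] at hφ
        rcases hφ with hφ | hφ
        · exact i3 φ hφ
        · rw [Option.mem_toList] at hφ
          have := (hC.1 _ _ _ hφ).1
          rwa [i1] at this
  have hb1 : PB (fun p : ℕ × List Bool => P.a p.1) :=
    (P.pa.comp (PTime.fst PTime.id)).pb.mono fun p => by
      rw [sz_nat]; omega
  have h4 : FPNP (fun p : ℕ × List Bool => step^[P.a p.1 + 1] (p, [])) := by
    refine K.iter (s := fun p => (p, ([] : List Form)))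
      (h := fun p => 1 + sz p + (1 + (P.a p.1 + 1) * (1 + sz p))) h3 (FPNP.of_ptime
        (PTime.pair PTime.id (PTime.const []))) hn ?_ ?_
    · exact ((PB.const 1).add PB.sz_self).add ((PB.const 1).add
        ((hb1.add (PB.const 1)).mul ((PB.const 1).add PB.sz_self)))
    · intro p i hi
      obtain ⟨k1, k2, k3⟩ := key p i
      have e1 : sz (step^[i] (p, [])) = 1 + sz (step^[i] (p, [])).1 + sz (step^[i] (p, [])).2 :=
        sz_pair _
      have e2 := sz_list_le (step^[i] (p, [])).2 (P.a p.1 + 1) (sz p) (k2.trans hi) (fun φ hφ => by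
        refine (k3 φ hφ).trans ?_
        have : sz p = 1 + sz p.1 + sz p.2 := sz_pair _
        rw [this, sz_nat]
        omega)
      rw [e1, k1]
      omega
  have h5 := K.comp hsam h4
  refine h5.congr fun p => ?_
  have e3 : ∀ i, step^[i] (p, []) = (p, (lstep S P cex p.1 p.2)^[i] []) := by
    intro i
    induction i with
    | zero => rfl
    | succ i ih => rw [Function.iterate_succ_apply', ih, Function.iterate_succ_apply']
  rw [e3]
  rfl

end Pool.TQ
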