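import Pool.Agent.H74.TQ.Stmts

set_option autoImplicit false

namespace Pool.TQ

open TMLib Polynomial

private lemma hval_length (a : ℕ) (h κ : List Bool) : (hval a h κ).length = a + 2 := by
  simp [hval]

private theorem samp_aux (hL : S_LEXM) (hT : LtbProps) (S : List Bool × Form → Bool) (a k : ℕ)
    (Φ : List Form) (h κ : List Bool) (hk : k ≤ a + 2) (hal : Alive S a Φ κ)
    (h0 : (hval a h κ).take k = List.replicate k false)
    (hu : ∀ κ', Alive S a Φ κ' → (hval a h κ').take k = List.replicate k false → κ' = κ) :
    samp S a Φ h = κ := by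
  classical
  set R : List Bool → Prop := fun w => w.take (a + 2) = hval a h (w.drop (a + 2)) ∧
    ∀ φ ∈ Φ, S (w.drop (a + 2), φ) = true with hR
  have hs : samp S a Φ h = (lexmin R (a + 2 + a)).drop (a + 2) := rfl
  obtain ⟨hlen, hmin⟩ := hL R (a + 2 + a)
  set l := lexmin R (a + 2 + a) with hl
  have hw1 : (hval a h κ ++ κ).length = a + 2 + a := by
    rw [List.length_append, hval_length, hal.1]
  have hdrop : (hval a h κ ++ κ).drop (a + 2) = κ :=
    List.drop_left' (hval_length a h κ)
  have htake : (hval a h κ ++ κ).take (a + 2) = hval a h κ :=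
    List.take_left' (hval_length a h κ)
  have hw2 : R (hval a h κ ++ κ) := by
    refine ⟨?_, ?_⟩
    · rw [hdrop, htake]
    · rw [hdrop]
      exact hal.2
  obtain ⟨hRl, hor⟩ := hmin _ hw1 hw2
  rw [hs]
  rcases hor with heq | hlt
  · rw [← heq, hdrop]
  · apply hu
    · exact ⟨by rw [List.length_drop, hlen]; omega, hRl.2⟩
    · rw [← hRl.1, List.take_take, min_eq_left hk]
      have e1 : l = l.take k ++ l.drop k := (List.take_append_drop k l).symm
      have e2 : hval a h κ ++ κ = List.replicate k false ++ (hval a h κ ++ κ).drop k := by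
        conv_lhs => rw [← List.take_append_drop k (hval a h κ ++ κ)]
        congr 1
        rw [← h0, List.take_append_of_le_length (by rw [hval_length]; exact hk)]
      rw [e1, e2, hT.append _ _ _ _ (by
        rw [List.length_take, List.length_replicate, hlen]; omega), hT.zeros] at hlt
      simp only [Bool.false_or, Bool.and_eq_true, decide_eq_true_eq] at hlt
      exact hlt.1

theorem samp_thm : S_SAMP := samp_aux

end Pool.TQ
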