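import Pool.Agent.H74.TQ.Stmts

set_option autoImplicit false

namespace Pool.TQ

open TMLib Polynomial

private lemma ptime_ip {α : Type} [Enc α] {u v : α → List Bool} (hu : PTime u) (hv : PTime v) :
    PTime (fun x => ip (u x) (v x)) := by
  have h := PTime.foldl (f := fun (_ : α) (s : Bool) (p : Bool × Bool) => xor s (p.1 && p.2))
    (init := fun _ => false) (l := fun x => (u x).zip (v x))
    (by
      have h1 : PTime (fun q : Bool × Bool => xor q.1 q.2) := by
        refine (PTime.cond (c := fun q : Bool × Bool => q.1) (f := fun q => !q.2)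
          (g := fun q => q.2) (PTime.fst PTime.id) (PTime.not (PTime.snd PTime.id))
          (PTime.snd PTime.id)).congr fun q => ?_
        cases q.1 <;> simp
      exact h1.comp (f := fun p : α × Bool × Bool × Bool => (p.2.1, p.2.2.1 && p.2.2.2))
        (PTime.pair (PTime.fst (PTime.snd PTime.id)) (PTime.and
          (PTime.fst (PTime.snd (PTime.snd PTime.id))) (PTime.snd (PTime.snd (PTime.snd PTime.id))))))
    (PTime.const false) (PTime.zip hu hv) (PB.const 3) (fun a l' _ => sz_bool_le _)
  exact h

private lemma ptime_hval {α : Type} [Enc α] {a : α → ℕ} {h κ : α → List Bool} (ha : PTime a)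
    (hh : PTime h) (hκ : PTime κ) : PTime (fun x => hval (a x) (h x) (κ x)) := by
  refine PTime.map (l := fun x => List.range (a x + 2))
    (g := fun x j => ip (((h x).drop (j * (a x + 1))).take (a x + 1)) (κ x ++ [true]))
    (PTime.range (PTime.add ha (PTime.const 2))) ?_
  have h1 : PTime (fun p : α × ℕ => a p.1 + 1) := (PTime.add ha (PTime.const 1)).comp
    (PTime.fst PTime.id)
  exact ptime_ip (PTime.take h1 (PTime.drop (PTime.mul (PTime.snd PTime.id) h1)
    (hh.comp (PTime.fst PTime.id)))) ((PTime.append hκ (PTime.const [true])).comp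
    (PTime.fst PTime.id))

theorem sampf : S_SAMPF := by
  classical
  intro K hL S hS
  have e1 : PTime (fun x : ℕ × List Form × List Bool => x.1 + 2 + x.1) := by fun_prop
  have e2 : PTime (fun x : ℕ × List Form × List Bool => x.1 + 2) := by fun_prop
  have hd : PTime (fun p : (ℕ × List Form × List Bool) × List Bool => p.2.drop (p.1.1 + 2)) := by
    fun_prop
  have h1 := hL K (α := ℕ × List Form × List Bool)
    (R := fun x w => w.take (x.1 + 2) = hval x.1 x.2.2 (w.drop (x.1 + 2)) ∧
      ∀ φ ∈ x.2.1, S (w.drop (x.1 + 2), φ) = true)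
    (N := fun x => x.1 + 2 + x.1) (by
      refine NPp.and ?_ ?_
      · refine NPp.of_ptime (P := fun p : (ℕ × List Form × List Bool) × List Bool =>
          p.2.take (p.1.1 + 2) = hval p.1.1 p.1.2.2 (p.2.drop (p.1.1 + 2))) ?_
        refine PTime.eq (by fun_prop) (ptime_hval (by fun_prop) (by fun_prop) hd)
      · refine (NPp.of_ptime (P := fun p : (ℕ × List Form × List Bool) × List Bool =>
          (p.1.2.1.all fun φ => S (p.2.drop (p.1.1 + 2), φ)) = true) ?_).congr fun p => ?_
        · refine PTime.decide_true' (PTime.all (g := fun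
            (p : (ℕ × List Form × List Bool) × List Bool) (φ : Form) =>
              S (p.2.drop (p.1.1 + 2), φ)) (by fun_prop) ?_)
          exact hS.comp (PTime.pair (hd.comp (PTime.fst PTime.id)) (PTime.snd PTime.id))
        · simp [List.all_eq_true]) e1
  have h2 := K.pcomp (g := fun q : (ℕ × List Form × List Bool) × List Bool =>
    q.2.drop (q.1.1 + 2)) hd (K.pair (FPNP.of_ptime PTime.id) h1)
  exact h2

end Pool.TQ
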