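import Pool.Agent.H74.TQ.Stmts

set_option autoImplicit false

namespace Pool.TQ

open TMLib Polynomial

theorem two : S_TWO := by
  intro K c α _ _ X₁ X₀ Y₁ h1 h0 hy
  obtain ⟨f1, pf1, hf1⟩ := K.toSat h1
  obtain ⟨f0, pf0, hf0⟩ := K.toSat h0
  obtain ⟨g1, pg1, hg1⟩ := K.toSat hy
  have pb := c.pb
  have pG := c.pG
  have pB0 : PTime (fun x : α => c.b (g1 x, f0 x)) := pb.comp (PTime.pair pg1 pf0)
  have pG0 : PTime (fun x : α => c.G (g1 x, f0 x)) := pG.comp (PTime.pair pg1 pf0)
  have pB1 : PTime (fun x : α => c.b (c.G (g1 x, f0 x), f1 x)) := pb.comp (PTime.pair pG0 pf1)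
  have pG1 : PTime (fun x : α => c.G (c.G (g1 x, f0 x), f1 x)) := pG.comp (PTime.pair pG0 pf1)
  obtain ⟨hh, phh, hhh⟩ := K.toSat ((npp_sat' pf1).or (npp_sat' pG0))
  refine ⟨fun x => bif c.b (g1 x, f0 x) then c.G (c.G (g1 x, f0 x), f1 x) else hh x,
    fun p => bif c.b (g1 p.1, f0 p.1) then
      (bif c.b (c.G (g1 p.1, f0 p.1), f1 p.1) then p.2 else !p.2) else p.2, ?_, ?_, ?_⟩
  · exact PTime.cond pB0 pG1 phh
  · refine PTime.cond (pB0.comp (PTime.fst PTime.id)) (PTime.cond (pB1.comp (PTime.fst PTime.id))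
      (PTime.snd PTime.id) (PTime.not (PTime.snd PTime.id))) (PTime.snd PTime.id)
  · intro x
    show X₁ x ∨ (¬ X₀ x ∧ Y₁ x) ↔ _
    rw [hf1, hf0, hg1]
    cases e0 : c.b (g1 x, f0 x) with
    | false =>
      have h := c.specF _ _ e0
      simp only [cond_false, satb_iff, ← hhh, e0]
      rw [and_comm, h]
    | true =>
      have h := c.specT _ _ e0
      simp only [cond_true, e0]
      cases e1 : c.b (c.G (g1 x, f0 x), f1 x) with
      | false =>
        have h' := c.specF _ _ e1
        simp only [cond_false, Bool.not_eq_true', satb_false_iff]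
        rw [← h']
        tauto
      | true =>
        have h' := c.specT _ _ e1
        simp only [cond_true, satb_iff]
        tauto

end Pool.TQ
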